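import Mathlib
import Pool.Agent.H12_RelFree.EAm

set_option autoImplicit false

/-!
# Finitely presented relatively free groups and elementary amenable groups

`N` is a nontrivial fully invariant subgroup of the free group `F` of rank `n` which is the normal
closure of a finite set, so `F ⧸ N` is an arbitrary finitely presented relatively free group of
finite rank.  Every finitely generated group `H` of the variety defined by the words in `N` has the
following property: every elementary amenable quotient `H ⧸ M` is virtually nilpotent and its kernel
`M` is finitely generated.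
-/

namespace Pool.Agent.Results.MP_5120d5_al.ElementaryAmenable

open Pool.Agent.H12RelFree

theorem result (n : ℕ) (N : Subgroup (FreeGroup (Fin n))) [N.Normal]
    (hfi : ∀ φ : FreeGroup (Fin n) →* FreeGroup (Fin n), ∀ x ∈ N, φ x ∈ N)
    (hN : N ≠ ⊥)
    (hS : ∃ S : Finset (FreeGroup (Fin n)),
      Subgroup.normalClosure (S : Set (FreeGroup (Fin n))) = N)
    (H : Type) [Group H] (hH : ∀ φ : FreeGroup (Fin n) →* H, ∀ w ∈ N, φ w = 1)
    (hfg : Group.FG H) (M : Subgroup H) [M.Normal] (hEA : ElementaryAmenable (H ⧸ M)) :
    (∃ P : Subgroup (H ⧸ M), P.FiniteIndex ∧ Group.IsNilpotent P) ∧ Group.FG M :=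
  Pool.Agent.H12RelFree.main N hfi hN hS H hH hfg M hEA

end Pool.Agent.Results.MP_5120d5_al.ElementaryAmenable
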