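import Mathlib
import Pool.Agent.H12_RelFree.Wreath

set_option autoImplicit false

/-!
# Finitely presented relatively free groups and infinite index subgroups

`N` is a nontrivial fully invariant subgroup of the free group `F` of rank `n` which is the normal
closure of a finite set.  If `N` is contained in `[R, R] R ^ p` for some subgroup `R` of `F` and some
prime `p`, then `R` has finite index in `F`.
-/

namespace Pool.Agent.Results.MP_5120d5_al.FiniteIndex

theorem result (n : ℕ) (N : Subgroup (FreeGroup (Fin n))) [N.Normal]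
    (hfi : ∀ φ : FreeGroup (Fin n) →* FreeGroup (Fin n), ∀ x ∈ N, φ x ∈ N)
    (hN : N ≠ ⊥)
    (hS : ∃ S : Finset (FreeGroup (Fin n)),
      Subgroup.normalClosure (S : Set (FreeGroup (Fin n))) = N)
    (R : Subgroup (FreeGroup (Fin n))) (p : ℕ) (hp : p.Prime)
    (hle : N ≤ ⁅R, R⁆ ⊔ Subgroup.closure {g | ∃ r ∈ R, g = r ^ p}) : R.FiniteIndex :=
  Pool.Agent.H12RelFree.Wr.finiteIndex_of_le N hfi hN hS R p hp hle

end Pool.Agent.Results.MP_5120d5_al.FiniteIndex
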