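import Mathlib
import Pool.Agent.H12_RelFree.EAm
import Pool.Agent.H12_RelFree.Wreath

set_option autoImplicit false

/-!
# Relatively free groups of product varieties

`N` is a nontrivial fully invariant subgroup of the free group `F` of rank `n` which is the normal
closure of a finite set.  If some subgroup `R` of `F` satisfies `N ≤ [R, R] R ^ p` for a prime `p`
and its image `R N / N` is elementary amenable, then `F ⧸ N` is virtually nilpotent.
-/

namespace Pool.Agent.Results.MP_5120d5_al.ProductVarieties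

open Pool.Agent.H12RelFree

theorem result (n : ℕ) (N : Subgroup (FreeGroup (Fin n))) [N.Normal]
    (hfi : ∀ φ : FreeGroup (Fin n) →* FreeGroup (Fin n), ∀ x ∈ N, φ x ∈ N)
    (hN : N ≠ ⊥)
    (hS : ∃ S : Finset (FreeGroup (Fin n)),
      Subgroup.normalClosure (S : Set (FreeGroup (Fin n))) = N)
    (R : Subgroup (FreeGroup (Fin n))) (p : ℕ) (hp : p.Prime)
    (hle : N ≤ ⁅R, R⁆ ⊔ Subgroup.closure {g | ∃ r ∈ R, g = r ^ p})
    (hEA : ElementaryAmenable (R.map (QuotientGroup.mk' N))) :
    ∃ P : Subgroup (FreeGroup (Fin n) ⧸ N), P.FiniteIndex ∧ Group.IsNilpotent P := by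
  have hR : R.FiniteIndex := Wr.finiteIndex_of_le N hfi hN hS R p hp hle
  set Rb := R.map (QuotientGroup.mk' N) with hRb
  have hRbf : Rb.FiniteIndex := by
    rw [Subgroup.finiteIndex_iff]
    have h1 := Subgroup.index_map_dvd R (QuotientGroup.mk'_surjective N)
    intro h0
    rw [← hRb, h0] at h1
    exact (Subgroup.finiteIndex_iff.1 hR) (Nat.eq_zero_of_zero_dvd h1)
  have hC : ElementaryAmenable Rb.normalCore :=
    ElementaryAmenable.of_injective _ _ (Subgroup.inclusion Rb.normalCore_le)
      (Subgroup.inclusion_injective _) hEA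
  have hfin : Finite ((FreeGroup (Fin n) ⧸ N) ⧸ Rb.normalCore) :=
    Subgroup.finite_quotient_of_finiteIndex
  have hG : ElementaryAmenable (FreeGroup (Fin n) ⧸ N) :=
    ElementaryAmenable.of_extension _ Rb.normalCore hC (ElementaryAmenable.of_finite _ hfin)
  obtain ⟨m, c, hc, hlaw⟩ := exists_mlaw N hfi hN hS
  have hvar : InVar N (FreeGroup (Fin n) ⧸ N) := by
    intro φ w hw
    choose g hg using QuotientGroup.mk_surjective (s := N)
    let θ : FreeGroup (Fin n) →* FreeGroup (Fin n) :=
      FreeGroup.lift fun i => g (φ (FreeGroup.of i))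
    have h1 : φ = (QuotientGroup.mk' N).comp θ := by
      ext i
      simp only [MonoidHom.comp_apply, θ, FreeGroup.lift_apply_of]
      exact (hg _).symm
    rw [h1]
    exact (QuotientGroup.eq_one_iff _).2 (hfi θ w hw)
  have hM : MLaw m c (FreeGroup (Fin n) ⧸ N) := hlaw _ hvar
  have hfg : Group.FG (FreeGroup (Fin n) ⧸ N) :=
    Group.fg_of_surjective (QuotientGroup.mk'_surjective N)
  exact section_VN hc _ hG _ hM hfg ⊤ (Subgroup.topEquiv (G := FreeGroup (Fin n) ⧸ N)).toMonoidHom
    (Subgroup.topEquiv (G := FreeGroup (Fin n) ⧸ N)).surjective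

end Pool.Agent.Results.MP_5120d5_al.ProductVarieties
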